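import Mathlib
import Pool.Agent.X159.VM.Free

set_option autoImplicit false

/-!
# Vinogradov's system: the weighted number of solutions, and a comparison with intervals
-/

namespace Pool.Agent.X37.VD

open Finset Pool.Agent.X159.VM

/-- the weight of a pair of tuples -/
def wt {s : ℕ} (w : ℕ → ℝ) (p : (Fin s → ℕ) × (Fin s → ℕ)) : ℝ :=
  (∏ i, w (p.1 i)) * ∏ i, w (p.2 i)

/-- the solutions with all variables in the finite set `A` -/
def solsFin (s k : ℕ) (A : Finset ℕ) : Finset ((Fin s → ℕ) × (Fin s → ℕ)) :=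
  solsOf s k (Fintype.piFinset fun _ : Fin s => A)

lemma wt_nonneg {s : ℕ} {w : ℕ → ℝ} (hw : ∀ n, 0 ≤ w n) (p : (Fin s → ℕ) × (Fin s → ℕ)) :
    0 ≤ wt w p :=
  mul_nonneg (Finset.prod_nonneg fun i _ => hw _) (Finset.prod_nonneg fun i _ => hw _)

section orth

variable {M : ℕ} [NeZero M] {k : ℕ}

noncomputable def HW {s : ℕ} (w : ℕ → ℝ) (T : Finset (Fin s → ℕ)) (a : Fin k → ZMod M) : ℂ :=
  ∑ x ∈ T, ((∏ i, w (x i) : ℝ) : ℂ) * (ZMod.stdAddChar (N := M)) (∑ j, a j * gam M k x j)

noncomputable def FW (w : ℕ → ℝ) (S : Finset ℕ) (a : Fin k → ZMod M) : ℂ :=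
  ∑ x ∈ S, (w x : ℂ) * (ZMod.stdAddChar (N := M)) (∑ j, a j * ((x ^ (j.val + 1) : ℕ) : ZMod M))

theorem prod_FW {s : ℕ} (w : ℕ → ℝ) (S : Fin s → Finset ℕ) (a : Fin k → ZMod M) :
    ∏ i, FW w (S i) a = HW w (Fintype.piFinset S) a := by
  unfold FW HW
  rw [Finset.prod_univ_sum]
  apply Finset.sum_congr rfl
  intro x _
  rw [Finset.prod_mul_distrib, ← addChar_sum]
  push_cast
  congr 2
  rw [Finset.sum_comm]
  apply Finset.sum_congr rfl
  intro j _
  unfold gam
  rw [← Finset.mul_sum]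
  push_cast
  rfl

theorem parsevalW {s : ℕ} (w : ℕ → ℝ) (T : Finset (Fin s → ℕ))
    (hM : ∀ x ∈ T, ∀ j : Fin k, ∑ i : Fin s, x i ^ (j.val + 1) < M) :
    ∑ a : Fin k → ZMod M, ‖HW w T a‖ ^ 2 = (M : ℝ) ^ k * ∑ p ∈ solsOf s k T, wt w p := by
  have hc : (∑ a : Fin k → ZMod M, ((‖HW w T a‖ ^ 2 : ℝ) : ℂ))
      = (M : ℂ) ^ k * ((∑ p ∈ solsOf s k T, wt w p : ℝ) : ℂ) := by
    have h1 : ∀ a : Fin k → ZMod M, ((‖HW w T a‖ ^ 2 : ℝ) : ℂ)
        = ∑ p ∈ T ×ˢ T, ((wt w p : ℝ) : ℂ) * (ZMod.stdAddChar (N := M))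
            (∑ j, a j * (gam M k p.1 j - gam M k p.2 j)) := by
      intro a
      have : ((‖HW w T a‖ ^ 2 : ℝ) : ℂ) = HW w T a * (starRingEnd ℂ) (HW w T a) := by
        rw [Complex.mul_conj, Complex.normSq_eq_norm_sq]
      rw [this]
      unfold HW
      rw [map_sum, Finset.sum_mul_sum, ← Finset.sum_product']
      apply Finset.sum_congr rfl
      intro p _
      rw [map_mul, ← AddChar.map_neg_eq_conj, Complex.conj_ofReal]
      have e1 : (ZMod.stdAddChar (N := M)) (∑ j, a j * (gam M k p.1 j - gam M k p.2 j))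
          = (ZMod.stdAddChar (N := M)) (∑ j, a j * gam M k p.1 j) *
            (ZMod.stdAddChar (N := M)) (-∑ j, a j * gam M k p.2 j) := by
        rw [← AddChar.map_add_eq_mul]
        congr 1
        rw [← sub_eq_add_neg, ← Finset.sum_sub_distrib]
        apply Finset.sum_congr rfl
        intro j _
        ring
      rw [e1]
      unfold wt
      push_cast
      ring
    simp_rw [h1]
    rw [Finset.sum_comm]
    have h2 : ∀ p ∈ T ×ˢ T, ∑ a : Fin k → ZMod M, ((wt w p : ℝ) : ℂ) *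
          (ZMod.stdAddChar (N := M)) (∑ j, a j * (gam M k p.1 j - gam M k p.2 j))
        = if (∀ j : Fin k, ∑ i : Fin s, p.1 i ^ (j.val + 1) = ∑ i : Fin s, p.2 i ^ (j.val + 1))
          then (M : ℂ) ^ k * ((wt w p : ℝ) : ℂ) else 0 := by
      intro p hp
      rw [← Finset.mul_sum, orth (fun j => gam M k p.1 j - gam M k p.2 j)]
      have hp' := Finset.mem_product.mp hp
      have hiff : ((fun j => gam M k p.1 j - gam M k p.2 j) = 0) ↔
          (∀ j : Fin k, ∑ i : Fin s, p.1 i ^ (j.val + 1) = ∑ i : Fin s, p.2 i ^ (j.val + 1)) := by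
        constructor
        · intro h j
          have hj := congrFun h j
          simp only [Pi.zero_apply, sub_eq_zero] at hj
          unfold gam at hj
          rw [ZMod.natCast_eq_natCast_iff'] at hj
          rwa [Nat.mod_eq_of_lt (hM _ hp'.1 j), Nat.mod_eq_of_lt (hM _ hp'.2 j)] at hj
        · intro h
          funext j
          simp only [Pi.zero_apply, sub_eq_zero]
          unfold gam
          rw [h j]
      by_cases hh : (∀ j : Fin k, ∑ i : Fin s, p.1 i ^ (j.val + 1)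
          = ∑ i : Fin s, p.2 i ^ (j.val + 1))
      · rw [if_pos hh, if_pos (hiff.mpr hh), mul_comm]
      · rw [if_neg hh, if_neg (fun h => hh (hiff.mp h)), mul_zero]
    rw [Finset.sum_congr rfl h2, ← Finset.sum_filter, ← Finset.mul_sum]
    unfold solsOf
    push_cast
    rfl
  have h4 : ((∑ a : Fin k → ZMod M, ‖HW w T a‖ ^ 2 : ℝ) : ℂ)
      = (((M : ℝ) ^ k * ∑ p ∈ solsOf s k T, wt w p : ℝ) : ℂ) := by
    push_cast
    push_cast at hc
    exact hc
  exact_mod_cast h4

end orth

theorem card_subsetW {s k N : ℕ} (M : ℕ) [NeZero M] (hM : s * N ^ k < M) (w : ℕ → ℝ) (S : Finset ℕ)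
    (hS : S ⊆ Finset.Icc 1 N) :
    ∑ a : Fin k → ZMod M, ‖FW w S a‖ ^ (2 * s) = (M : ℝ) ^ k * ∑ p ∈ solsFin s k S, wt w p := by
  unfold solsFin
  rw [← parsevalW]
  · apply Finset.sum_congr rfl
    intro a _
    rw [← prod_FW, norm_prod, Finset.prod_const, Finset.card_univ, Fintype.card_fin, ← pow_mul]
    congr 1
    ring
  · intro x hx j
    rw [Fintype.mem_piFinset] at hx
    rcases Nat.eq_zero_or_pos N with h0 | h0
    · subst h0
      rcases Nat.eq_zero_or_pos s with h1 | h1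
      · subst h1
        simpa using Nat.pos_of_ne_zero (NeZero.ne M)
      · exact absurd (hS (hx ⟨0, h1⟩)) (by simp)
    · calc ∑ i : Fin s, x i ^ (j.val + 1) ≤ ∑ _i : Fin s, N ^ k := by
            apply Finset.sum_le_sum
            intro i _
            exact (Nat.pow_le_pow_left (Finset.mem_Icc.mp (hS (hx i))).2 _).trans
              (Nat.pow_le_pow_right h0 (by have := j.2; omega))
        _ = s * N ^ k := by simp
        _ < M := hM

/-- translation invariance -/
theorem shiftW {s k : ℕ} {S T : Finset ℕ} (φ : ℕ → ℕ) (c : ℚ) (v w : ℕ → ℝ)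
    (hv : ∀ n, 0 ≤ v n) (hw : ∀ n, 0 ≤ w n)
    (h : ∀ n ∈ S, φ n ∈ T ∧ (φ n : ℚ) = n + c ∧ v n ≤ w (φ n)) :
    ∑ p ∈ solsFin s k S, wt v p ≤ ∑ p ∈ solsFin s k T, wt w p := by
  classical
  set Φ : (Fin s → ℕ) × (Fin s → ℕ) → (Fin s → ℕ) × (Fin s → ℕ) :=
    fun p => (fun i => φ (p.1 i), fun i => φ (p.2 i)) with hΦ
  have hmaps : ∀ p ∈ solsFin s k S, Φ p ∈ solsFin s k T := by
    intro p hp
    unfold solsFin solsOf at hp ⊢
    rw [Finset.mem_filter, Finset.mem_product, Fintype.mem_piFinset, Fintype.mem_piFinset] at hp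
    obtain ⟨⟨h1, h2⟩, h3⟩ := hp
    rw [Finset.mem_filter, Finset.mem_product, Fintype.mem_piFinset, Fintype.mem_piFinset]
    refine ⟨⟨fun i => (h _ (h1 i)).1, fun i => (h _ (h2 i)).1⟩, fun j => ?_⟩
    set P : Polynomial ℚ := (Polynomial.X + Polynomial.C c) ^ (j.val + 1) with hP
    have hdeg : P.natDegree ≤ k := by
      have h5 : (Polynomial.X + Polynomial.C c : Polynomial ℚ).natDegree ≤ 1 := by
        compute_degree
      calc P.natDegree ≤ (j.val + 1) * 1 := by
            rw [hP]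
            exact Polynomial.natDegree_pow_le_of_le _ h5
        _ ≤ k := by have := j.2; omega
    have h6 := poly_system p.1 p.2 h3 P hdeg
    have h7 : ∀ t ∈ S, P.eval (t : ℚ) = ((φ t ^ (j.val + 1) : ℕ) : ℚ) := by
      intro t ht
      rw [hP]
      simp only [Polynomial.eval_pow, Polynomial.eval_add, Polynomial.eval_C, Polynomial.eval_X]
      push_cast
      rw [(h t ht).2.1]
    have h10 : ∑ i, P.eval (p.1 i : ℚ) = ((∑ i, φ (p.1 i) ^ (j.val + 1) : ℕ) : ℚ) := by
      push_cast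
      apply Finset.sum_congr rfl
      intro i _
      have := h7 _ (h1 i)
      push_cast at this
      exact this
    have h11 : ∑ i, P.eval (p.2 i : ℚ) = ((∑ i, φ (p.2 i) ^ (j.val + 1) : ℕ) : ℚ) := by
      push_cast
      apply Finset.sum_congr rfl
      intro i _
      have := h7 _ (h2 i)
      push_cast at this
      exact this
    rw [h10, h11] at h6
    exact_mod_cast h6
  have hinj : Set.InjOn Φ (solsFin s k S : Set _) := by
    intro p hp p' hp' heq
    rw [Finset.mem_coe] at hp hp'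
    unfold solsFin solsOf at hp hp'
    rw [Finset.mem_filter, Finset.mem_product, Fintype.mem_piFinset, Fintype.mem_piFinset]
      at hp hp'
    have key : ∀ t t' : ℕ, t ∈ S → t' ∈ S → φ t = φ t' → t = t' := by
      intro t t' ht ht' he
      have h1 := (h t ht).2.1
      have h2 := (h t' ht').2.1
      have h3 : (t : ℚ) = t' := by
        rw [he] at h1
        linarith
      exact_mod_cast h3
    have e1 := congrArg Prod.fst heq
    have e2 := congrArg Prod.snd heq
    simp only [hΦ] at e1 e2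
    apply Prod.ext
    · funext i
      exact key _ _ (hp.1.1 i) (hp'.1.1 i) (congrFun e1 i)
    · funext i
      exact key _ _ (hp.1.2 i) (hp'.1.2 i) (congrFun e2 i)
  calc ∑ p ∈ solsFin s k S, wt v p ≤ ∑ p ∈ solsFin s k S, wt w (Φ p) := by
        apply Finset.sum_le_sum
        intro p hp
        unfold solsFin solsOf at hp
        rw [Finset.mem_filter, Finset.mem_product, Fintype.mem_piFinset, Fintype.mem_piFinset] at hp
        unfold wt
        apply mul_le_mul
        · exact Finset.prod_le_prod (fun i _ => hv _) fun i _ => (h _ (hp.1.1 i)).2.2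
        · exact Finset.prod_le_prod (fun i _ => hv _) fun i _ => (h _ (hp.1.2 i)).2.2
        · exact Finset.prod_nonneg fun i _ => hv _
        · exact Finset.prod_nonneg fun i _ => hw _
    _ = ∑ q ∈ (solsFin s k S).image Φ, wt w q := (Finset.sum_image hinj).symm
    _ ≤ _ := by
        apply Finset.sum_le_sum_of_subset_of_nonneg
        · intro q hq
          obtain ⟨p, hp, rfl⟩ := Finset.mem_image.1 hq
          exact hmaps p hp
        · intro q _ _
          exact wt_nonneg hw q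

/-- **Comparison.** Arbitrary weights on `[1, L]`. -/
theorem comparison (s k N L : ℕ) (hs : 1 ≤ s) (w : ℕ → ℝ) (hw : ∀ n, 0 ≤ w n) :
    (∑ n ∈ Finset.Icc 1 L, w n) ^ (2 * s) * ((sols s k N).card : ℝ) ≤
      ((N + L : ℕ) : ℝ) ^ (2 * s) * ∑ p ∈ sols s k L, wt w p := by
  classical
  set I : Finset ℕ := Finset.Ioc L (L + N) with hI
  set S : ℕ → Finset ℕ := fun t => I.filter (fun n => t ≤ n ∧ n - t ∈ Finset.Icc 1 L) with hS
  set N' : ℕ := L + N with hN'
  set M : ℕ := s * N' ^ k + 1 with hM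
  set W : ℝ := ∑ n ∈ Finset.Icc 1 L, w n with hW
  have hW0 : 0 ≤ W := Finset.sum_nonneg fun n _ => hw n
  have : NeZero M := ⟨by omega⟩
  have hMpos : (0 : ℝ) < (M : ℝ) ^ k := by
    have : (0 : ℝ) < M := by
      have : 0 < M := by omega
      exact_mod_cast this
    positivity
  have hIs : I ⊆ Finset.Icc 1 N' := by
    intro n hn
    rw [hI, Finset.mem_Ioc] at hn
    rw [Finset.mem_Icc]
    omega
  -- the total weight
  have hcount : ∀ n ∈ I, ∑ t ∈ (Finset.range (N + L)).filter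
      (fun t => t ≤ n ∧ n - t ∈ Finset.Icc 1 L), w (n - t) = W := by
    intro n hn
    rw [hI, Finset.mem_Ioc] at hn
    symm
    apply Finset.sum_bij (fun a _ => n - a)
    · intro a ha
      have h1 := Finset.mem_Icc.1 ha
      rw [Finset.mem_filter, Finset.mem_range, Finset.mem_Icc]
      omega
    · intro a ha b hb hab
      have h1 := Finset.mem_Icc.1 ha
      have h2 := Finset.mem_Icc.1 hb
      omega
    · intro t ht
      rw [Finset.mem_filter, Finset.mem_range] at ht
      exact ⟨n - t, ht.2.2, by omega⟩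
    · intro a ha
      have h1 := Finset.mem_Icc.1 ha
      congr 1
      omega
  -- pointwise
  have hpt : ∀ a : Fin k → ZMod M, (W * ‖FW 1 I a‖) ^ (2 * s) ≤
      ((N + L : ℕ) : ℝ) ^ (2 * s - 1) *
        ∑ t ∈ Finset.range (N + L), ‖FW (fun n => w (n - t)) (S t) a‖ ^ (2 * s) := by
    intro a
    have h1 : (W : ℂ) * FW 1 I a
        = ∑ t ∈ Finset.range (N + L), FW (fun n => w (n - t)) (S t) a := by
      unfold FW
      simp only [hS, Finset.sum_filter, Pi.one_apply, Complex.ofReal_one, one_mul]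
      rw [Finset.sum_comm, Finset.mul_sum]
      apply Finset.sum_congr rfl
      intro n hn
      rw [← Finset.sum_filter, ← Finset.sum_mul, ← hcount n hn]
      push_cast
      rfl
    have h2 : W * ‖FW 1 I a‖ ≤ ∑ t ∈ Finset.range (N + L), ‖FW (fun n => w (n - t)) (S t) a‖ := by
      calc W * ‖FW 1 I a‖ = ‖(W : ℂ) * FW 1 I a‖ := by
            rw [norm_mul, Complex.norm_real, Real.norm_of_nonneg hW0]
        _ = ‖∑ t ∈ Finset.range (N + L), FW (fun n => w (n - t)) (S t) a‖ := by rw [h1]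
        _ ≤ _ := norm_sum_le _ _
    have h3 := pow_sum_le_card_mul_sum_pow (s := Finset.range (N + L))
      (f := fun t => ‖FW (fun n => w (n - t)) (S t) a‖) (fun t _ => norm_nonneg _) (2 * s - 1)
    rw [Finset.card_range, show 2 * s - 1 + 1 = 2 * s by omega] at h3
    exact (pow_le_pow_left₀ (by positivity) h2 _).trans h3
  have hsum := Finset.sum_le_sum
    (fun a (_ : a ∈ (Finset.univ : Finset (Fin k → ZMod M))) => hpt a)
  rw [← Finset.mul_sum, Finset.sum_comm] at hsum
  simp_rw [mul_pow] at hsum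
  rw [← Finset.mul_sum, card_subsetW (s := s) (N := N') M (by omega) 1 I hIs] at hsum
  set E : ℝ := ∑ p ∈ sols s k L, wt w p with hE
  have h6 : ∀ t ∈ Finset.range (N + L),
      ∑ a : Fin k → ZMod M, ‖FW (fun n => w (n - t)) (S t) a‖ ^ (2 * s) ≤ (M : ℝ) ^ k * E := by
    intro t _
    rw [card_subsetW (s := s) (N := N') M (by omega) (fun n => w (n - t)) (S t)
      ((Finset.filter_subset _ _).trans hIs)]
    apply mul_le_mul_of_nonneg_left _ hMpos.le
    apply shiftW (T := Finset.Icc 1 L) (fun n => n - t) (-(t : ℚ)) _ w (fun n => hw _) hw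
    intro n hn
    rw [hS, Finset.mem_filter] at hn
    refine ⟨hn.2.2, ?_, le_rfl⟩
    rw [Nat.cast_sub hn.2.1]
    ring
  have h9 := Finset.sum_le_sum h6
  rw [Finset.sum_const, Finset.card_range, nsmul_eq_mul] at h9
  have h10 : (0 : ℝ) ≤ ((N + L : ℕ) : ℝ) ^ (2 * s - 1) := by positivity
  have h11 := hsum.trans (mul_le_mul_of_nonneg_left h9 h10)
  have h12 : (M : ℝ) ^ k * (W ^ (2 * s) * ∑ p ∈ solsFin s k I, wt 1 p) ≤
      (M : ℝ) ^ k * (((N + L : ℕ) : ℝ) ^ (2 * s) * E) := by
    have e1 : ((N + L : ℕ) : ℝ) ^ (2 * s) = ((N + L : ℕ) : ℝ) ^ (2 * s - 1) * ((N + L : ℕ) : ℝ) := by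
      rw [← pow_succ]
      congr 1
      omega
    rw [e1]
    calc (M : ℝ) ^ k * (W ^ (2 * s) * ∑ p ∈ solsFin s k I, wt 1 p)
        = W ^ (2 * s) * ((M : ℝ) ^ k * ∑ p ∈ solsFin s k I, wt 1 p) := by ring
      _ ≤ _ := h11
      _ = _ := by ring
  have h13 := le_of_mul_le_mul_left h12 hMpos
  have h14 : ((sols s k N).card : ℝ) ≤ ∑ p ∈ solsFin s k I, wt 1 p := by
    have h15 : ∑ p ∈ solsFin s k (Finset.Icc 1 N), wt 1 p ≤ ∑ p ∈ solsFin s k I, wt 1 p := by
      apply shiftW (fun n => n + L) (L : ℚ) 1 1 (fun _ => zero_le_one) (fun _ => zero_le_one)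
      intro n hn
      rw [Finset.mem_Icc] at hn
      refine ⟨?_, by push_cast; ring, le_rfl⟩
      rw [hI, Finset.mem_Ioc]
      omega
    refine le_trans (le_of_eq ?_) h15
    unfold wt
    simp only [Pi.one_apply, Finset.prod_const_one, mul_one, Finset.sum_const, nsmul_eq_mul]
    rfl
  exact (mul_le_mul_of_nonneg_left h14 (by positivity)).trans h13

end Pool.Agent.X37.VD
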