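import Mathlib
import Pool.Agent.X37.VD.Weighted

set_option autoImplicit false

/-!
# Vinogradov's system: conditioned solutions with all variables in a dense set
-/

namespace Pool.Agent.X37.VD

open Finset Pool.Agent.X159.VM

/-- the solutions with all variables in the finite set `A`, `x_i ≡ y_i` modulo `q`, and
`x_1, …, x_s` pairwise incongruent modulo `q` -/
def condFin (s k q : ℕ) (A : Finset ℕ) : Finset ((Fin s → ℕ) × (Fin s → ℕ)) :=
  (solsFin s k A).filter (fun p =>
    (∀ i, p.1 i % q = p.2 i % q) ∧ ∀ i j, p.1 i % q = p.1 j % q → i = j)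

/-- the residue class `c` in `A` -/
def clsA (q : ℕ) (A : Finset ℕ) (c : Fin q) : Finset ℕ := A.filter (fun x => x % q = c.val)

lemma solsFin_mono {s k : ℕ} {A B : Finset ℕ} (h : A ⊆ B) : solsFin s k A ⊆ solsFin s k B := by
  intro p hp
  unfold solsFin solsOf at hp ⊢
  rw [Finset.mem_filter, Finset.mem_product, Fintype.mem_piFinset, Fintype.mem_piFinset] at hp ⊢
  exact ⟨⟨fun i => h (hp.1.1 i), fun i => h (hp.1.2 i)⟩, hp.2⟩

/-- the recursion for an arbitrary set `A ⊆ [1, N]` -/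
theorem recursionA {s k q N : ℕ} (hs : 2 ≤ s) (hq : 1 ≤ q) (A : Finset ℕ)
    (hA : A ⊆ Finset.Icc 1 N) :
    ((solsFin s k A).card : ℝ) ≤ (2 * ((s : ℝ) - 1)) ^ (2 * s) * q * (sols s k (N / q + 1)).card
      + (2 * (q : ℝ)) ^ (2 * s) * (condFin s k q A).card := by
  classical
  set M : ℕ := s * N ^ k + 1 with hMdef
  have : NeZero M := ⟨by omega⟩
  have hconst : ∀ (S : Finset ℕ), S ⊆ Finset.Icc 1 N →
      ∑ a : Fin k → ZMod M, ‖F S a‖ ^ (2 * s)
        = (M : ℝ) ^ k * ((solsFin s k S).card : ℝ) :=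
    fun S hS => card_subset M (by omega) S hS
  have hsub : ∀ S : Fin s → Finset ℕ, (∀ i, S i ⊆ Finset.Icc 1 N) →
      ∀ x ∈ Fintype.piFinset S, ∀ j : Fin k, ∑ i : Fin s, x i ^ (j.val + 1) < M := by
    intro S hS x hx j
    rw [Fintype.mem_piFinset] at hx
    have hN : 1 ≤ N := by
      have := Finset.mem_Icc.mp (hS ⟨0, by omega⟩ (hx ⟨0, by omega⟩))
      omega
    calc ∑ i : Fin s, x i ^ (j.val + 1) ≤ ∑ _i : Fin s, N ^ k := by
          apply Finset.sum_le_sum
          intro i _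
          exact (Nat.pow_le_pow_left (Finset.mem_Icc.mp (hS i (hx i))).2 _).trans
            (Nat.pow_le_pow_right hN (by have := j.2; omega))
      _ = s * N ^ k := by simp
      _ < M := by omega
  have hcls : ∀ c : Fin q, clsA q A c ⊆ Finset.Icc 1 N := fun c => (Finset.filter_subset _ _).trans hA
  have hF : ∀ a : Fin k → ZMod M, F A a = ∑ c : Fin q, F (clsA q A c) a := by
    intro a
    unfold F clsA
    rw [← Finset.sum_fiberwise_of_maps_to (s := A) (t := (Finset.univ : Finset (Fin q)))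
      (g := fun x => (⟨x % q, Nat.mod_lt _ (by omega)⟩ : Fin q)) (fun _ _ => Finset.mem_univ _)]
    apply Finset.sum_congr rfl
    intro c _
    apply Finset.sum_congr _ (fun _ _ => rfl)
    ext x
    simp only [Finset.mem_filter, Fin.ext_iff]
  have hpt : ∀ a : Fin k → ZMod M, ‖F A a‖ ^ (2 * s)
      ≤ (2 * ((s : ℝ) - 1)) ^ (2 * s) * ∑ c, ‖F (clsA q A c) a‖ ^ (2 * s)
      + (2 * (q : ℝ)) ^ (2 * s) *
        ∑ c ∈ (Finset.univ : Finset (Fin s → Fin q)).filter Function.Injective,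
          ∏ i, ‖F (clsA q A (c i)) a‖ ^ 2 := by
    intro a
    rw [hF a]
    exact pointwise hs hq _
  have hprod : ∀ (S : Fin s → Finset ℕ), (∀ i, S i ⊆ Finset.Icc 1 N) →
      ∑ a : Fin k → ZMod M, ∏ i, ‖F (S i) a‖ ^ 2
        = (M : ℝ) ^ k * ((solsOf s k (Fintype.piFinset S)).card : ℝ) := by
    intro S hS
    rw [← parseval _ (hsub S hS)]
    apply Finset.sum_congr rfl
    intro a _
    rw [← prod_F, norm_prod, Finset.prod_pow]
  have hsum := Finset.sum_le_sum (fun a (_ : a ∈ (Finset.univ : Finset (Fin k → ZMod M))) => hpt a)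
  rw [Finset.sum_add_distrib, ← Finset.mul_sum, ← Finset.mul_sum, Finset.sum_comm,
    Finset.sum_comm (s := (Finset.univ : Finset (Fin k → ZMod M)))
      (t := (Finset.univ : Finset (Fin s → Fin q)).filter Function.Injective),
    hconst _ hA] at hsum
  simp_rw [hconst _ (hcls _)] at hsum
  have hinj : ∀ c ∈ (Finset.univ : Finset (Fin s → Fin q)).filter Function.Injective,
      ∑ a : Fin k → ZMod M, ∏ i, ‖F (clsA q A (c i)) a‖ ^ 2
        = (M : ℝ) ^ k * ((solsOf s k (Fintype.piFinset fun i => clsA q A (c i))).card : ℝ) :=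
    fun c _ => hprod (fun i => clsA q A (c i)) (fun i => hcls _)
  rw [Finset.sum_congr rfl hinj] at hsum
  -- the conditioned solutions
  have hcond : ∑ c ∈ (Finset.univ : Finset (Fin s → Fin q)).filter Function.Injective,
      ((solsOf s k (Fintype.piFinset fun i => clsA q A (c i))).card : ℝ)
        ≤ (condFin s k q A).card := by
    have h1 : (condFin s k q A).card = ∑ c ∈ (Finset.univ : Finset (Fin s → Fin q)).filter
        Function.Injective, ((condFin s k q A).filter (fun p =>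
          (fun i => (⟨p.1 i % q, Nat.mod_lt _ (by omega)⟩ : Fin q)) = c)).card := by
      apply Finset.card_eq_sum_card_fiberwise
      intro p hp
      rw [Finset.mem_coe] at hp ⊢
      rw [Finset.mem_filter]
      refine ⟨Finset.mem_univ _, ?_⟩
      intro i j hij
      simp only [Fin.mk.injEq] at hij
      unfold condFin at hp
      rw [Finset.mem_filter] at hp
      exact hp.2.2 i j hij
    rw [h1]
    push_cast
    apply Finset.sum_le_sum
    intro c hc
    rw [Finset.mem_filter] at hc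
    have : (solsOf s k (Fintype.piFinset fun i => clsA q A (c i))) ⊆
        (condFin s k q A).filter (fun p =>
          (fun i => (⟨p.1 i % q, Nat.mod_lt _ (by omega)⟩ : Fin q)) = c) := by
      intro p hp
      unfold solsOf at hp
      rw [Finset.mem_filter, Finset.mem_product, Fintype.mem_piFinset, Fintype.mem_piFinset] at hp
      obtain ⟨⟨h2, h3⟩, h4⟩ := hp
      have h5 : ∀ i, p.1 i ∈ A ∧ p.1 i % q = (c i).val := by
        intro i
        have := h2 i
        unfold clsA at this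
        rwa [Finset.mem_filter] at this
      have h6 : ∀ i, p.2 i ∈ A ∧ p.2 i % q = (c i).val := by
        intro i
        have := h3 i
        unfold clsA at this
        rwa [Finset.mem_filter] at this
      rw [Finset.mem_filter]
      refine ⟨?_, ?_⟩
      · unfold condFin solsFin solsOf
        rw [Finset.mem_filter, Finset.mem_filter, Finset.mem_product, Fintype.mem_piFinset,
          Fintype.mem_piFinset]
        refine ⟨⟨⟨fun i => (h5 i).1, fun i => (h6 i).1⟩, h4⟩, ?_, ?_⟩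
        · intro i
          rw [(h5 i).2, (h6 i).2]
        · intro i j hij
          rw [(h5 i).2, (h5 j).2] at hij
          exact hc.2 (Fin.ext hij)
      · funext i
        exact Fin.ext (h5 i).2
    exact_mod_cast Finset.card_le_card this
  have hcl2 : ∑ c : Fin q, ((solsFin s k (clsA q A c)).card : ℝ)
      ≤ q * (sols s k (N / q + 1)).card := by
    calc _ ≤ ∑ _c : Fin q, ((sols s k (N / q + 1)).card : ℝ) := by
          apply Finset.sum_le_sum
          intro c _
          have h1 : (solsFin s k (clsA q A c)).card ≤ (solsFin s k (cls q N c)).card :=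
            Finset.card_le_card (solsFin_mono (Finset.filter_subset_filter _ hA))
          exact_mod_cast h1.trans (dilate hq c)
      _ = _ := by simp
  rw [← Finset.mul_sum, ← Finset.mul_sum] at hsum
  have hMpos : (0 : ℝ) < (M : ℝ) ^ k := by
    have : (0 : ℝ) < M := by
      have : 0 < M := by omega
      exact_mod_cast this
    positivity
  have hA' : 0 ≤ (2 * ((s : ℝ) - 1)) ^ (2 * s) := by
    rw [pow_mul]
    positivity
  have hfin : (M : ℝ) ^ k * ((solsFin s k A).card : ℝ) ≤ (M : ℝ) ^ k *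
      ((2 * ((s : ℝ) - 1)) ^ (2 * s) * q * (sols s k (N / q + 1)).card
      + (2 * (q : ℝ)) ^ (2 * s) * (condFin s k q A).card) := by
    refine hsum.trans ?_
    have e1 : (2 * ((s : ℝ) - 1)) ^ (2 * s) * ((M : ℝ) ^ k *
        ∑ c : Fin q, ((solsFin s k (clsA q A c)).card : ℝ))
        ≤ (M : ℝ) ^ k * ((2 * ((s : ℝ) - 1)) ^ (2 * s) * q * (sols s k (N / q + 1)).card) := by
      calc _ = (M : ℝ) ^ k * ((2 * ((s : ℝ) - 1)) ^ (2 * s) *
            ∑ c : Fin q, ((solsFin s k (clsA q A c)).card : ℝ)) := by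
            ring
        _ ≤ (M : ℝ) ^ k * ((2 * ((s : ℝ) - 1)) ^ (2 * s) *
            (q * (sols s k (N / q + 1)).card)) := by
            apply mul_le_mul_of_nonneg_left _ hMpos.le
            exact mul_le_mul_of_nonneg_left hcl2 hA'
        _ = _ := by ring
    have e2 : (2 * (q : ℝ)) ^ (2 * s) * ((M : ℝ) ^ k *
        ∑ c ∈ (Finset.univ : Finset (Fin s → Fin q)).filter Function.Injective,
          ((solsOf s k (Fintype.piFinset fun i => clsA q A (c i))).card : ℝ))
        ≤ (M : ℝ) ^ k * ((2 * (q : ℝ)) ^ (2 * s) * (condFin s k q A).card) := by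
      calc _ = (M : ℝ) ^ k * ((2 * (q : ℝ)) ^ (2 * s) *
            ∑ c ∈ (Finset.univ : Finset (Fin s → Fin q)).filter Function.Injective,
          ((solsOf s k (Fintype.piFinset fun i => clsA q A (c i))).card : ℝ)) := by ring
        _ ≤ _ := by
            apply mul_le_mul_of_nonneg_left _ hMpos.le
            exact mul_le_mul_of_nonneg_left hcond (by positivity)
    calc _ ≤ _ := add_le_add e1 e2
      _ = _ := by ring
  exact le_of_mul_le_mul_left hfin hMpos

/-- the comparison for sets -/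
theorem comparison_set (s k N : ℕ) (hs : 1 ≤ s) (A : Finset ℕ) (hA : A ⊆ Finset.Icc 1 N) :
    (A.card : ℝ) ^ (2 * s) * ((sols s k N).card : ℝ) ≤
      (2 * (N : ℝ)) ^ (2 * s) * ((solsFin s k A).card : ℝ) := by
  classical
  have h := comparison s k N N hs (fun n => if n ∈ A then 1 else 0)
    (fun n => by split_ifs <;> norm_num)
  have e1 : ∑ n ∈ Finset.Icc 1 N, (if n ∈ A then (1 : ℝ) else 0) = A.card := by
    rw [Finset.sum_ite_mem, Finset.inter_eq_right.2 hA]
    simp
  have e2 : ∑ p ∈ sols s k N, wt (fun n => if n ∈ A then (1 : ℝ) else 0) p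
      = (solsFin s k A).card := by
    have h1 : ∀ p : (Fin s → ℕ) × (Fin s → ℕ), wt (fun n => if n ∈ A then (1 : ℝ) else 0) p
        = if (∀ i, p.1 i ∈ A) ∧ ∀ i, p.2 i ∈ A then 1 else 0 := by
      intro p
      unfold wt
      rw [Finset.prod_ite_zero, Finset.prod_ite_zero]
      simp only [Finset.mem_univ, forall_true_left, Finset.prod_const_one]
      by_cases h1 : ∀ i, p.1 i ∈ A
      · by_cases h2 : ∀ i, p.2 i ∈ A
        · simp [h1, h2]
        · have h3 : ¬ ((∀ i, p.1 i ∈ A) ∧ ∀ i, p.2 i ∈ A) := fun h => h2 h.2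
          rw [if_neg h3, if_neg h2, mul_zero]
      · have h3 : ¬ ((∀ i, p.1 i ∈ A) ∧ ∀ i, p.2 i ∈ A) := fun h => h1 h.1
        rw [if_neg h3, if_neg h1, zero_mul]
    simp_rw [h1]
    rw [← Finset.sum_filter, Finset.sum_const, nsmul_eq_mul, mul_one]
    congr 2
    ext p
    unfold sols solsFin solsOf
    simp only [Finset.mem_filter, Finset.mem_product, Fintype.mem_piFinset]
    constructor
    · rintro ⟨⟨_, h3⟩, h4, h5⟩
      exact ⟨⟨h4, h5⟩, h3⟩
    · rintro ⟨⟨h4, h5⟩, h3⟩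
      exact ⟨⟨⟨fun i => hA (h4 i), fun i => hA (h5 i)⟩, h3⟩, h4, h5⟩
  simp only [e1, e2] at h
  have e3 : ((N + N : ℕ) : ℝ) = 2 * (N : ℝ) := by push_cast; ring
  rwa [e3] at h

/-- the numerical condition on the modulus -/
theorem q_boundA {s q : ℕ} {δ : ℝ} (hs : 2 ≤ s) (hδ : 0 < δ) (hδ1 : δ ≤ 1)
    (hq : 2048 * (s : ℝ) ^ 4 ≤ δ ^ 4 * q) :
    (2 / δ) ^ (2 * s) * ((2 * ((s : ℝ) - 1)) ^ (2 * s) * q * (2 / (q : ℝ)) ^ s) ≤ 1 / 2 := by
  have hsR : (2 : ℝ) ≤ s := by exact_mod_cast hs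
  have hqR : (0 : ℝ) < q := by
    have h1 : 0 < 2048 * (s : ℝ) ^ 4 := by positivity
    have h2 : 0 < δ ^ 4 * (q : ℝ) := lt_of_lt_of_le h1 hq
    exact (pos_iff_pos_of_mul_pos h2).1 (by positivity)
  obtain ⟨t, rfl⟩ : ∃ t, s = t + 1 := ⟨s - 1, by omega⟩
  have ht : 1 ≤ t := by omega
  have e1 : (q : ℝ) * (2 / (q : ℝ)) ^ (t + 1) = 2 ^ (t + 1) / (q : ℝ) ^ t := by
    rw [div_pow, pow_succ (q : ℝ) t]
    field_simp
  have e0 : ((t + 1 : ℕ) : ℝ) - 1 = t := by push_cast; ring
  rw [e0, mul_assoc, e1]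
  have hr : 1 ≤ 2 / δ := by
    rw [le_div_iff₀ hδ]
    linarith
  have hq2 : 128 * ((t : ℝ) + 1) ^ 4 * (2 / δ) ^ 4 ≤ q := by
    have h1 : (2 / δ) ^ 4 = 16 / δ ^ 4 := by rw [div_pow]; norm_num
    rw [h1, mul_div_assoc', div_le_iff₀ (by positivity)]
    push_cast at hq
    linarith
  have h1 : (2 / δ) ^ (2 * (t + 1)) * ((2 * (t : ℝ)) ^ (2 * (t + 1)) * 2 ^ (t + 1)) * 2
      ≤ (q : ℝ) ^ t := by
    have h3 : (128 * ((t : ℝ) + 1) ^ 4 * (2 / δ) ^ 4) ^ t ≤ (q : ℝ) ^ t :=
      pow_le_pow_left₀ (by positivity) hq2 t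
    refine le_trans ?_ h3
    have h4 : (2 * (t : ℝ)) ^ (2 * (t + 1)) ≤ 2 ^ (2 * (t + 1)) * ((t : ℝ) + 1) ^ (4 * t) := by
      rw [mul_pow]
      apply mul_le_mul_of_nonneg_left _ (by positivity)
      calc (t : ℝ) ^ (2 * (t + 1)) ≤ ((t : ℝ) + 1) ^ (2 * (t + 1)) :=
            pow_le_pow_left₀ (by positivity) (by linarith) _
        _ ≤ ((t : ℝ) + 1) ^ (4 * t) := by
            apply pow_le_pow_right₀ _ (by omega)
            have : (0 : ℝ) ≤ t := by positivity
            linarith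
    have h5 : (2 : ℝ) ^ (2 * (t + 1)) * 2 ^ (t + 1) * 2 ≤ 128 ^ t := by
      have : (128 : ℝ) = 2 ^ 7 := by norm_num
      rw [this, ← pow_mul, ← pow_add, ← pow_succ]
      exact pow_le_pow_right₀ (by norm_num) (by omega)
    have h6 : (2 / δ) ^ (2 * (t + 1)) ≤ (2 / δ) ^ (4 * t) := pow_le_pow_right₀ hr (by omega)
    have hp1 : (0 : ℝ) ≤ (2 / δ) ^ (2 * (t + 1)) := by positivity
    have hp2 : (0 : ℝ) ≤ ((2 * (t : ℝ)) ^ (2 * (t + 1)) * 2 ^ (t + 1)) * 2 := by positivity
    calc (2 / δ) ^ (2 * (t + 1)) * ((2 * (t : ℝ)) ^ (2 * (t + 1)) * 2 ^ (t + 1)) * 2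
        = (2 / δ) ^ (2 * (t + 1)) * (((2 * (t : ℝ)) ^ (2 * (t + 1)) * 2 ^ (t + 1)) * 2) := by ring
      _ ≤ (2 / δ) ^ (4 * t) * (((2 * (t : ℝ)) ^ (2 * (t + 1)) * 2 ^ (t + 1)) * 2) :=
          mul_le_mul_of_nonneg_right h6 hp2
      _ ≤ (2 / δ) ^ (4 * t) *
          (((2 ^ (2 * (t + 1)) * ((t : ℝ) + 1) ^ (4 * t)) * 2 ^ (t + 1)) * 2) := by
          apply mul_le_mul_of_nonneg_left _ (by positivity)
          apply mul_le_mul_of_nonneg_right _ (by norm_num)
          exact mul_le_mul_of_nonneg_right h4 (by positivity)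
      _ = (2 / δ) ^ (4 * t) *
          ((2 ^ (2 * (t + 1)) * 2 ^ (t + 1) * 2) * ((t : ℝ) + 1) ^ (4 * t)) := by ring
      _ ≤ (2 / δ) ^ (4 * t) * (128 ^ t * ((t : ℝ) + 1) ^ (4 * t)) := by
          apply mul_le_mul_of_nonneg_left _ (by positivity)
          exact mul_le_mul_of_nonneg_right h5 (by positivity)
      _ = (128 * ((t : ℝ) + 1) ^ 4 * (2 / δ) ^ 4) ^ t := by
          rw [mul_pow, mul_pow, ← pow_mul, ← pow_mul]
          ring
  have hqt : (0 : ℝ) < (q : ℝ) ^ t := by positivity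
  rw [← mul_div_assoc, ← mul_div_assoc, div_le_iff₀ hqt]
  linarith

end Pool.Agent.X37.VD
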