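import Mathlib
import Pool.Agent.X37.VD.Cond

set_option autoImplicit false

/-!
# Vinogradov's mean value: from measures and dense families to intervals
-/

namespace Pool.Agent.X37.VD

open Finset Filter Topology Pool.Agent.X159.VM

/-- the exponent of the conjectured bound -/
lemma exp_exists (s k : ℕ) (hs : 1 ≤ s) : ∃ E : ℝ, (s : ℝ) ≤ E ∧
    ∀ N : ℕ, 1 ≤ N → ord s k N ≤ 2 * (N : ℝ) ^ E ∧ (N : ℝ) ^ E ≤ ord s k N ∧ 1 ≤ (N : ℝ) ^ E := by
  set e : ℝ := 2 * (s : ℝ) - (k : ℝ) * ((k : ℝ) + 1) / 2 with he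
  set E : ℝ := max (s : ℝ) e with hE
  have hsR : (1 : ℝ) ≤ s := by exact_mod_cast hs
  have hEs : (s : ℝ) ≤ E := le_max_left _ _
  refine ⟨E, hEs, fun N hN => ⟨?_, ?_, ?_⟩⟩
  · have hNR : (1 : ℝ) ≤ N := by exact_mod_cast hN
    unfold ord
    have h1 : (N : ℝ) ^ (s : ℝ) ≤ (N : ℝ) ^ E := Real.rpow_le_rpow_of_exponent_le hNR hEs
    have h2 : (N : ℝ) ^ e ≤ (N : ℝ) ^ E :=
      Real.rpow_le_rpow_of_exponent_le hNR (le_max_right _ _)
    rw [← he]
    linarith
  · have hNR : (0 : ℝ) ≤ N := by positivity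
    unfold ord
    rw [← he]
    have h1 : 0 ≤ (N : ℝ) ^ (s : ℝ) := Real.rpow_nonneg hNR _
    have h2 : 0 ≤ (N : ℝ) ^ e := Real.rpow_nonneg hNR _
    rcases max_choice (s : ℝ) e with h3 | h3
    · rw [hE, h3]; linarith
    · rw [hE, h3]; linarith
  · exact Real.one_le_rpow (by exact_mod_cast hN) (by linarith)

lemma ord_ge_one {s k N : ℕ} (hs : 1 ≤ s) (hN : 1 ≤ N) : 1 ≤ ord s k N := by
  obtain ⟨E, -, h⟩ := exp_exists s k hs
  obtain ⟨-, h2, h3⟩ := h N hN
  linarith

/-- for some probability weights on `[1, N]` the probability of a solution is `≪ ord / N^(2s)` -/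
def MeasureBound (s k : ℕ) : Prop :=
  ∃ C : ℝ, ∀ N : ℕ, 1 ≤ N → ∃ w : ℕ → ℝ, (∀ n, 0 ≤ w n) ∧ ∑ n ∈ Finset.Icc 1 N, w n = 1 ∧
    (N : ℝ) ^ (2 * s) * ∑ p ∈ sols s k N, wt w p ≤ C * ord s k N

theorem measure_iff {s k : ℕ} (hs : 1 ≤ s) : MeanValue s k ↔ MeasureBound s k := by
  constructor
  · rintro ⟨C, hC⟩
    refine ⟨C, fun N hN => ⟨fun _ => (N : ℝ)⁻¹, fun n => by positivity, ?_, ?_⟩⟩
    · have hNR : (N : ℝ) ≠ 0 := by
        have : N ≠ 0 := by omega
        exact_mod_cast this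
      simp [hNR]
    · have hNR : (N : ℝ) ≠ 0 := by
        have : N ≠ 0 := by omega
        exact_mod_cast this
      refine le_trans (le_of_eq ?_) (hC N hN)
      unfold wt
      simp only [Finset.prod_const, Finset.card_univ, Fintype.card_fin, Finset.sum_const,
        nsmul_eq_mul]
      rw [← pow_add, ← two_mul, inv_pow]
      field_simp
  · rintro ⟨C, hC⟩
    refine ⟨2 ^ (2 * s) * C, fun N hN => ?_⟩
    obtain ⟨w, hw, hw1, h⟩ := hC N hN
    have h1 := comparison s k N N hs w hw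
    rw [hw1, one_pow, one_mul] at h1
    have e3 : ((N + N : ℕ) : ℝ) = 2 * (N : ℝ) := by push_cast; ring
    rw [e3, mul_pow, mul_assoc] at h1
    calc ((sols s k N).card : ℝ) ≤ 2 ^ (2 * s) * ((N : ℝ) ^ (2 * s) * ∑ p ∈ sols s k N, wt w p) := h1
      _ ≤ 2 ^ (2 * s) * (C * ord s k N) := mul_le_mul_of_nonneg_left h (by positivity)
      _ = _ := by ring

/-- sets `A_N ⊆ [1, N]` with at least `δ N` elements for large `N` -/
def DenseFamily (δ : ℝ) (A : ℕ → Finset ℕ) : Prop :=
  (∀ N, A N ⊆ Finset.Icc 1 N) ∧ ∀ᶠ N : ℕ in atTop, δ * N ≤ (A N).card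

/-- the conjectured bound for the solutions in `A_N` -/
def BoundOn (A : ℕ → Finset ℕ) (s k : ℕ) : Prop :=
  ∃ C : ℝ, ∀ N : ℕ, 1 ≤ N → ((solsFin s k (A N)).card : ℝ) ≤ C * ord s k N

/-- the conjectured bound for the conditioned solutions in `A_N` -/
def CondBoundOn (A : ℕ → Finset ℕ) (s k q : ℕ) : Prop :=
  ∃ C : ℝ, ∀ N : ℕ, 1 ≤ N → ((condFin s k q (A N)).card : ℝ) ≤ C * ord s k N

lemma DenseFamily.le_one {δ : ℝ} {A : ℕ → Finset ℕ} (h : DenseFamily δ A) : δ ≤ 1 := by
  obtain ⟨N, hN, hN1⟩ := (h.2.and (eventually_ge_atTop 1)).exists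
  have h1 : ((A N).card : ℝ) ≤ N := by
    have := Finset.card_le_card (h.1 N)
    rw [Nat.card_Icc, Nat.add_sub_cancel] at this
    exact_mod_cast this
  have h2 : (0 : ℝ) < N := by exact_mod_cast hN1
  have h3 : δ * N ≤ 1 * N := by linarith
  exact le_of_mul_le_mul_right h3 h2

lemma dense_ineq {δ : ℝ} (hδ : 0 < δ) {s k N : ℕ} (hs : 1 ≤ s) (hN : 1 ≤ N) {A : Finset ℕ}
    (hA : A ⊆ Finset.Icc 1 N) (h : δ * N ≤ A.card) :
    ((sols s k N).card : ℝ) ≤ (2 / δ) ^ (2 * s) * ((solsFin s k A).card : ℝ) := by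
  have hNR : (0 : ℝ) < N := by exact_mod_cast hN
  have h1 := comparison_set s k N hs A hA
  have h2 : (δ * N) ^ (2 * s) ≤ (A.card : ℝ) ^ (2 * s) :=
    pow_le_pow_left₀ (by positivity) h _
  have h3 : (δ * N) ^ (2 * s) * ((sols s k N).card : ℝ) ≤
      (2 * (N : ℝ)) ^ (2 * s) * ((solsFin s k A).card : ℝ) :=
    (mul_le_mul_of_nonneg_right h2 (by positivity)).trans h1
  have h4 : (0 : ℝ) < (δ * N) ^ (2 * s) := by positivity
  refine le_of_mul_le_mul_left (h3.trans (le_of_eq ?_)) h4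
  have e1 : (δ * (N : ℝ)) ^ (2 * s) * (2 / δ) ^ (2 * s) = (2 * (N : ℝ)) ^ (2 * s) := by
    rw [← mul_pow]
    congr 1
    field_simp
  rw [← mul_assoc, e1]

lemma solsFin_sub {s k N : ℕ} {A : Finset ℕ} (hA : A ⊆ Finset.Icc 1 N) :
    (solsFin s k A).card ≤ (sols s k N).card :=
  Finset.card_le_card (solsFin_mono hA)

theorem dense_iff {δ : ℝ} (hδ : 0 < δ) {A : ℕ → Finset ℕ} (hA : DenseFamily δ A) {s k : ℕ}
    (hs : 1 ≤ s) : MeanValue s k ↔ BoundOn A s k := by
  constructor
  · rintro ⟨C, hC⟩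
    refine ⟨C, fun N hN => le_trans ?_ (hC N hN)⟩
    exact_mod_cast solsFin_sub (hA.1 N)
  · rintro ⟨C, hC⟩
    obtain ⟨N0, hN0⟩ := eventually_atTop.1 hA.2
    refine ⟨max ((2 / δ) ^ (2 * s) * C) ((N0 : ℝ) ^ (2 * s)), fun N hN => ?_⟩
    have ho := ord_ge_one (k := k) hs hN
    rcases le_or_gt N0 N with h | h
    · calc ((sols s k N).card : ℝ) ≤ (2 / δ) ^ (2 * s) * ((solsFin s k (A N)).card : ℝ) :=
            dense_ineq hδ hs hN (hA.1 N) (hN0 N h)
        _ ≤ (2 / δ) ^ (2 * s) * (C * ord s k N) :=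
            mul_le_mul_of_nonneg_left (hC N hN) (by positivity)
        _ = ((2 / δ) ^ (2 * s) * C) * ord s k N := by ring
        _ ≤ _ := mul_le_mul_of_nonneg_right (le_max_left _ _) (by linarith)
    · calc ((sols s k N).card : ℝ) ≤ ((N ^ (2 * s) : ℕ) : ℝ) := by
            exact_mod_cast card_sols_le s k N
        _ = (N : ℝ) ^ (2 * s) := by push_cast; ring
        _ ≤ (N0 : ℝ) ^ (2 * s) := pow_le_pow_left₀ (by positivity) (by exact_mod_cast h.le) _
        _ ≤ max ((2 / δ) ^ (2 * s) * C) ((N0 : ℝ) ^ (2 * s)) := le_max_right _ _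
        _ ≤ _ := le_mul_of_one_le_right (le_max_of_le_right (by positivity)) ho

theorem dense_cond_iff {δ : ℝ} (hδ : 0 < δ) {A : ℕ → Finset ℕ} (hA : DenseFamily δ A) {s k q : ℕ}
    (hs : 2 ≤ s) (hq : 2048 * (s : ℝ) ^ 4 ≤ δ ^ 4 * q) : MeanValue s k ↔ CondBoundOn A s k q := by
  constructor
  · rintro ⟨C, hC⟩
    refine ⟨C, fun N hN => le_trans ?_ (hC N hN)⟩
    have : (condFin s k q (A N)).card ≤ (sols s k N).card :=
      (Finset.card_filter_le _ _).trans (solsFin_sub (hA.1 N))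
    exact_mod_cast this
  · rintro ⟨C, hC⟩
    obtain ⟨N0, hN0⟩ := eventually_atTop.1 hA.2
    have hδ1 := hA.le_one
    obtain ⟨E, hEs, hE⟩ := exp_exists s k (by omega)
    have hsR : (2 : ℝ) ≤ s := by exact_mod_cast hs
    have hδ4 : δ ^ 4 ≤ 1 := pow_le_one₀ hδ.le hδ1
    have hqR : (2048 : ℝ) ≤ q := by
      have h1 : (16 : ℝ) ≤ (s : ℝ) ^ 4 := by
        calc (16 : ℝ) = 2 ^ 4 := by norm_num
          _ ≤ _ := pow_le_pow_left₀ (by norm_num) hsR 4
      have h2 : δ ^ 4 * (q : ℝ) ≤ 1 * q := mul_le_mul_of_nonneg_right hδ4 (by positivity)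
      linarith
    have hq2048 : 2048 ≤ q := by exact_mod_cast hqR
    set A0 : ℝ := (2 * ((s : ℝ) - 1)) ^ (2 * s) with hA0
    have hA00 : 0 ≤ A0 := by
      rw [hA0, pow_mul]
      positivity
    set D : ℝ := (2 / δ) ^ (2 * s) with hD
    have hD0 : 0 ≤ D := by positivity
    set B : ℝ := (2 * (q : ℝ)) ^ (2 * s) with hB
    have hB0 : 0 ≤ B := by positivity
    set C' : ℝ := max C 0 with hC'
    have hC'0 : 0 ≤ C' := le_max_right _ _
    set Q : ℕ := max q N0 with hQ
    set K : ℝ := (Q : ℝ) ^ (2 * s) + 4 * (D * B * C') with hK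
    have hDBC : 0 ≤ D * B * C' := mul_nonneg (mul_nonneg hD0 hB0) hC'0
    have hK0 : 0 ≤ K := by positivity
    have main : ∀ N : ℕ, 1 ≤ N → ((sols s k N).card : ℝ) ≤ K * (N : ℝ) ^ E := by
      intro N
      induction N using Nat.strong_induction_on with
      | _ N ih =>
        intro hN
        have hNR : (1 : ℝ) ≤ N := by exact_mod_cast hN
        obtain ⟨ho1, ho2, ho3⟩ := hE N hN
        by_cases hNq : N < Q
        · have h1 : ((sols s k N).card : ℝ) ≤ (Q : ℝ) ^ (2 * s) := by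
            calc ((sols s k N).card : ℝ) ≤ ((N ^ (2 * s) : ℕ) : ℝ) := by
                  exact_mod_cast card_sols_le s k N
              _ = (N : ℝ) ^ (2 * s) := by push_cast; ring
              _ ≤ (Q : ℝ) ^ (2 * s) :=
                  pow_le_pow_left₀ (by positivity) (by exact_mod_cast hNq.le) _
          calc ((sols s k N).card : ℝ) ≤ (Q : ℝ) ^ (2 * s) := h1
            _ ≤ K := by rw [hK]; linarith
            _ ≤ K * (N : ℝ) ^ E := le_mul_of_one_le_right hK0 ho3
        · push Not at hNq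
          have hqN : q ≤ N := (le_max_left _ _).trans hNq
          have hN0N : N0 ≤ N := (le_max_right _ _).trans hNq
          have hlt : N / q + 1 < N := by
            have h1 : N / q ≤ N / 2048 := Nat.div_le_div_left hq2048 (by norm_num)
            omega
          have h1 := ih (N / q + 1) hlt (Nat.le_add_left 1 _)
          have h2 : (((N / q + 1 : ℕ) : ℝ)) ≤ 2 / (q : ℝ) * N := by
            have h3 : ((N / q : ℕ) : ℝ) ≤ (N : ℝ) / q := Nat.cast_div_le
            have h4 : (1 : ℝ) ≤ (N : ℝ) / q := by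
              rw [le_div_iff₀ (by linarith)]
              simpa using (by exact_mod_cast hqN : (q : ℝ) ≤ N)
            push_cast
            calc ((N / q : ℕ) : ℝ) + 1 ≤ (N : ℝ) / q + (N : ℝ) / q := by linarith
              _ = 2 / (q : ℝ) * N := by ring
          have hq0 : (0 : ℝ) < 2 / (q : ℝ) := by positivity
          have hq1 : 2 / (q : ℝ) ≤ 1 := by
            rw [div_le_one (by linarith)]
            linarith
          have h5 : (((N / q + 1 : ℕ) : ℝ)) ^ E ≤ (2 / (q : ℝ)) ^ s * (N : ℝ) ^ E := by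
            calc (((N / q + 1 : ℕ) : ℝ)) ^ E ≤ (2 / (q : ℝ) * N) ^ E :=
                  Real.rpow_le_rpow (by positivity) h2 (by linarith)
              _ = (2 / (q : ℝ)) ^ E * (N : ℝ) ^ E := Real.mul_rpow hq0.le (by positivity)
              _ ≤ (2 / (q : ℝ)) ^ s * (N : ℝ) ^ E := by
                  apply mul_le_mul_of_nonneg_right _ (by positivity)
                  rw [← Real.rpow_natCast]
                  exact Real.rpow_le_rpow_of_exponent_ge hq0 hq1 hEs
          have h6 := recursionA (s := s) (k := k) (q := q) (N := N) hs (by omega) (A N) (hA.1 N)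
          have h7 : ((condFin s k q (A N)).card : ℝ) ≤ 2 * C' * (N : ℝ) ^ E := by
            calc ((condFin s k q (A N)).card : ℝ) ≤ C * ord s k N := hC N hN
              _ ≤ C' * ord s k N := by
                  apply mul_le_mul_of_nonneg_right (le_max_left _ _)
                  linarith
              _ ≤ C' * (2 * (N : ℝ) ^ E) := mul_le_mul_of_nonneg_left ho1 hC'0
              _ = _ := by ring
          have h8 := q_boundA hs hδ hδ1 hq
          rw [← hA0, ← hD] at h8
          have h9 := dense_ineq (k := k) hδ (show 1 ≤ s by omega) hN (hA.1 N) (hN0 N hN0N)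
          rw [← hD] at h9
          rw [← hA0, ← hB] at h6
          have hNE : 0 ≤ (N : ℝ) ^ E := by positivity
          have hq0' : (0 : ℝ) ≤ q := by linarith
          calc ((sols s k N).card : ℝ) ≤ D * ((solsFin s k (A N)).card : ℝ) := h9
            _ ≤ D * (A0 * q * (sols s k (N / q + 1)).card + B * (condFin s k q (A N)).card) :=
                mul_le_mul_of_nonneg_left h6 hD0
            _ ≤ D * (A0 * q * (K * ((2 / (q : ℝ)) ^ s * (N : ℝ) ^ E)) +
                  B * (2 * C' * (N : ℝ) ^ E)) := by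
                apply mul_le_mul_of_nonneg_left _ hD0
                apply add_le_add
                · apply mul_le_mul_of_nonneg_left _ (mul_nonneg hA00 hq0')
                  exact h1.trans (mul_le_mul_of_nonneg_left h5 hK0)
                · exact mul_le_mul_of_nonneg_left h7 hB0
            _ = (D * (A0 * q * (2 / (q : ℝ)) ^ s)) * (K * (N : ℝ) ^ E)
                  + 2 * (D * B * C') * (N : ℝ) ^ E := by ring
            _ ≤ (1 / 2) * (K * (N : ℝ) ^ E) + (1 / 2) * K * (N : ℝ) ^ E := by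
                apply add_le_add
                · exact mul_le_mul_of_nonneg_right h8 (mul_nonneg hK0 hNE)
                · apply mul_le_mul_of_nonneg_right _ hNE
                  rw [hK]
                  have : (0 : ℝ) ≤ (Q : ℝ) ^ (2 * s) := by positivity
                  linarith
            _ = K * (N : ℝ) ^ E := by ring
    refine ⟨K, fun N hN => (main N hN).trans ?_⟩
    exact mul_le_mul_of_nonneg_left (hE N hN).2.1 hK0

theorem vaughan_measure : Vaughan ↔ ∀ s k : ℕ, Critical s k → MeasureBound s k := by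
  constructor
  · intro h s k hc
    obtain ⟨h1, h2, h3⟩ := critical_two_le hc
    exact (measure_iff (by omega)).1 (h s k (by omega) h2 h3)
  · intro h
    apply vaughan_of_critical
    intro s k hc
    have h1 := (critical_two_le hc).1
    exact (measure_iff (by omega)).2 (h s k hc)

theorem vaughan_dense {δ : ℝ} (hδ : 0 < δ) {A : ℕ → Finset ℕ} (hA : DenseFamily δ A) :
    Vaughan ↔ ∀ s k : ℕ, Critical s k → BoundOn A s k := by
  constructor
  · intro h s k hc
    obtain ⟨h1, h2, h3⟩ := critical_two_le hc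
    exact (dense_iff hδ hA (by omega)).1 (h s k (by omega) h2 h3)
  · intro h
    apply vaughan_of_critical
    intro s k hc
    have h1 := (critical_two_le hc).1
    exact (dense_iff hδ hA (by omega)).2 (h s k hc)

theorem vaughan_cond : Vaughan ↔ ∀ s k : ℕ, Critical s k → ∃ δ : ℝ, 0 < δ ∧
    ∃ A : ℕ → Finset ℕ, DenseFamily δ A ∧ ∃ q : ℕ, 2048 * (s : ℝ) ^ 4 ≤ δ ^ 4 * q ∧
      CondBoundOn A s k q := by
  constructor
  · intro h s k hc
    obtain ⟨h1, h2, h3⟩ := critical_two_le hc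
    have hd : DenseFamily 1 (fun N => Finset.Icc 1 N) :=
      ⟨fun N => le_rfl, Filter.Eventually.of_forall fun N => by simp⟩
    refine ⟨1, one_pos, fun N => Finset.Icc 1 N, hd, 2048 * s ^ 4, by push_cast; linarith, ?_⟩
    exact (dense_cond_iff one_pos hd h1 (by push_cast; linarith)).1 (h s k (by omega) h2 h3)
  · intro h
    apply vaughan_of_critical
    intro s k hc
    have h1 := (critical_two_le hc).1
    obtain ⟨δ, hδ, A, hA, q, hq, h⟩ := h s k hc
    exact (dense_cond_iff hδ hA h1 hq).2 h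

end Pool.Agent.X37.VD
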