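import Mathlib
import Pool.Agent.X159.VM.Free

set_option autoImplicit false

/-!
# Vinogradov's system: from an arbitrary subset of an interval to intervals
-/

namespace Pool.Agent.X37.VD

open Finset Pool.Agent.X159.VM

/-- the solutions with all variables in the finite set `A` -/
def solsFin (s k : ℕ) (A : Finset ℕ) : Finset ((Fin s → ℕ) × (Fin s → ℕ)) :=
  solsOf s k (Fintype.piFinset fun _ : Fin s => A)

/-- translation invariance -/
theorem shift {s k : ℕ} {S T : Finset ℕ} (φ : ℕ → ℕ) (c : ℚ)
    (h : ∀ n ∈ S, φ n ∈ T ∧ (φ n : ℚ) = n + c) :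
    (solsFin s k S).card ≤ (solsFin s k T).card := by
  apply Finset.card_le_card_of_injOn (fun p => (fun i => φ (p.1 i), fun i => φ (p.2 i)))
  · intro p hp
    rw [Finset.mem_coe] at hp ⊢
    unfold solsFin solsOf at hp ⊢
    rw [Finset.mem_filter, Finset.mem_product, Fintype.mem_piFinset, Fintype.mem_piFinset] at hp
    obtain ⟨⟨h1, h2⟩, h3⟩ := hp
    rw [Finset.mem_filter, Finset.mem_product, Fintype.mem_piFinset, Fintype.mem_piFinset]
    refine ⟨⟨fun i => (h _ (h1 i)).1, fun i => (h _ (h2 i)).1⟩, fun j => ?_⟩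
    set P : Polynomial ℚ := (Polynomial.X + Polynomial.C c) ^ (j.val + 1) with hP
    have hdeg : P.natDegree ≤ k := by
      have h5 : (Polynomial.X + Polynomial.C c : Polynomial ℚ).natDegree ≤ 1 := by
        compute_degree
      calc P.natDegree ≤ (j.val + 1) * 1 := by
            rw [hP]
            exact Polynomial.natDegree_pow_le_of_le _ h5
        _ ≤ k := by have := j.2; omega
    have h6 := poly_system p.1 p.2 h3 P hdeg
    have h7 : ∀ t ∈ S, P.eval (t : ℚ) = ((φ t ^ (j.val + 1) : ℕ) : ℚ) := by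
      intro t ht
      rw [hP]
      simp only [Polynomial.eval_pow, Polynomial.eval_add, Polynomial.eval_C, Polynomial.eval_X]
      push_cast
      rw [(h t ht).2]
    have h10 : ∑ i, P.eval (p.1 i : ℚ) = ((∑ i, φ (p.1 i) ^ (j.val + 1) : ℕ) : ℚ) := by
      push_cast
      apply Finset.sum_congr rfl
      intro i _
      have := h7 _ (h1 i)
      push_cast at this
      exact this
    have h11 : ∑ i, P.eval (p.2 i : ℚ) = ((∑ i, φ (p.2 i) ^ (j.val + 1) : ℕ) : ℚ) := by
      push_cast
      apply Finset.sum_congr rfl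
      intro i _
      have := h7 _ (h2 i)
      push_cast at this
      exact this
    rw [h10, h11] at h6
    exact_mod_cast h6
  · intro p hp p' hp' heq
    rw [Finset.mem_coe] at hp hp'
    unfold solsFin solsOf at hp hp'
    rw [Finset.mem_filter, Finset.mem_product, Fintype.mem_piFinset, Fintype.mem_piFinset]
      at hp hp'
    have key : ∀ t t' : ℕ, t ∈ S → t' ∈ S → φ t = φ t' → t = t' := by
      intro t t' ht ht' he
      have h1 := (h t ht).2
      have h2 := (h t' ht').2
      have h3 : (t : ℚ) = t' := by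
        rw [he] at h1
        linarith
      exact_mod_cast h3
    have e1 := congrArg Prod.fst heq
    have e2 := congrArg Prod.snd heq
    simp only at e1 e2
    apply Prod.ext
    · funext i
      exact key _ _ (hp.1.1 i) (hp'.1.1 i) (congrFun e1 i)
    · funext i
      exact key _ _ (hp.1.2 i) (hp'.1.2 i) (congrFun e2 i)

/-- **Transfer.** An arbitrary subset `A` of an interval of length `L`. -/
theorem transfer (s k N u L : ℕ) (hs : 1 ≤ s) (A : Finset ℕ) (hA : A ⊆ Finset.Ioc u (u + L)) :
    A.card ^ (2 * s) * (sols s k N).card ≤ (N + L) ^ (2 * s) * (solsFin s k A).card := by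
  classical
  set I : Finset ℕ := Finset.Ioc (u + L) (u + L + N) with hI
  set S : ℕ → Finset ℕ := fun t => I.filter (fun n => t ≤ n ∧ n - t ∈ A) with hS
  set N' : ℕ := u + L + N with hN'
  set M : ℕ := s * N' ^ k + 1 with hM
  have : NeZero M := ⟨by omega⟩
  have hMpos : (0 : ℝ) < (M : ℝ) ^ k := by
    have : (0 : ℝ) < M := by
      have : 0 < M := by omega
      exact_mod_cast this
    positivity
  have hIs : I ⊆ Finset.Icc 1 N' := by
    intro n hn
    rw [hI, Finset.mem_Ioc] at hn
    rw [Finset.mem_Icc]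
    omega
  -- the number of representations
  have hcount : ∀ n ∈ I, ((Finset.range (N + L)).filter (fun t => t ≤ n ∧ n - t ∈ A)).card
      = A.card := by
    intro n hn
    rw [hI, Finset.mem_Ioc] at hn
    symm
    apply Finset.card_bij (fun a _ => n - a)
    · intro a ha
      have h1 := Finset.mem_Ioc.1 (hA ha)
      rw [Finset.mem_filter, Finset.mem_range]
      have h2 : n - (n - a) = a := by omega
      refine ⟨by omega, by omega, ?_⟩
      rw [h2]
      exact ha
    · intro a ha b hb hab
      have h1 := Finset.mem_Ioc.1 (hA ha)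
      have h2 := Finset.mem_Ioc.1 (hA hb)
      omega
    · intro t ht
      rw [Finset.mem_filter, Finset.mem_range] at ht
      exact ⟨n - t, ht.2.2, by omega⟩
  -- pointwise
  have hpt : ∀ a : Fin k → ZMod M, ((A.card : ℝ) * ‖F I a‖) ^ (2 * s) ≤
      ((N + L : ℕ) : ℝ) ^ (2 * s - 1) * ∑ t ∈ Finset.range (N + L), ‖F (S t) a‖ ^ (2 * s) := by
    intro a
    have h1 : (A.card : ℂ) * F I a = ∑ t ∈ Finset.range (N + L), F (S t) a := by
      unfold F
      simp only [hS, Finset.sum_filter]
      rw [Finset.sum_comm, Finset.mul_sum]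
      apply Finset.sum_congr rfl
      intro n hn
      rw [← Finset.sum_filter, Finset.sum_const, hcount n hn, nsmul_eq_mul]
    have h2 : (A.card : ℝ) * ‖F I a‖ ≤ ∑ t ∈ Finset.range (N + L), ‖F (S t) a‖ := by
      calc (A.card : ℝ) * ‖F I a‖ = ‖(A.card : ℂ) * F I a‖ := by
            rw [norm_mul, Complex.norm_natCast]
        _ = ‖∑ t ∈ Finset.range (N + L), F (S t) a‖ := by rw [h1]
        _ ≤ _ := norm_sum_le _ _
    have h3 := pow_sum_le_card_mul_sum_pow (s := Finset.range (N + L))
      (f := fun t => ‖F (S t) a‖) (fun t _ => norm_nonneg _) (2 * s - 1)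
    rw [Finset.card_range, show 2 * s - 1 + 1 = 2 * s by omega] at h3
    exact (pow_le_pow_left₀ (by positivity) h2 _).trans h3
  have hsum := Finset.sum_le_sum
    (fun a (_ : a ∈ (Finset.univ : Finset (Fin k → ZMod M))) => hpt a)
  rw [← Finset.mul_sum, Finset.sum_comm] at hsum
  simp_rw [mul_pow] at hsum
  rw [← Finset.mul_sum, card_subset (s := s) (N := N') M (by omega) I hIs] at hsum
  have h6 : ∀ t ∈ Finset.range (N + L), ∑ a : Fin k → ZMod M, ‖F (S t) a‖ ^ (2 * s) ≤
      (M : ℝ) ^ k * ((solsFin s k A).card : ℝ) := by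
    intro t _
    rw [card_subset (s := s) (N := N') M (by omega) (S t)
      ((Finset.filter_subset _ _).trans hIs)]
    apply mul_le_mul_of_nonneg_left _ hMpos.le
    have : (solsFin s k (S t)).card ≤ (solsFin s k A).card := by
      apply shift (fun n => n - t) (-(t : ℚ))
      intro n hn
      rw [hS, Finset.mem_filter] at hn
      refine ⟨hn.2.2, ?_⟩
      rw [Nat.cast_sub hn.2.1]
      ring
    exact_mod_cast this
  have h9 := Finset.sum_le_sum h6
  rw [Finset.sum_const, Finset.card_range, nsmul_eq_mul] at h9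
  have h10 : (0 : ℝ) ≤ ((N + L : ℕ) : ℝ) ^ (2 * s - 1) := by positivity
  have h11 := hsum.trans (mul_le_mul_of_nonneg_left h9 h10)
  have h12 : (M : ℝ) ^ k * ((A.card : ℝ) ^ (2 * s) * ((solsFin s k I).card : ℝ)) ≤
      (M : ℝ) ^ k * (((N + L : ℕ) : ℝ) ^ (2 * s) * ((solsFin s k A).card : ℝ)) := by
    have e1 : ((N + L : ℕ) : ℝ) ^ (2 * s) = ((N + L : ℕ) : ℝ) ^ (2 * s - 1) * ((N + L : ℕ) : ℝ) := by
      rw [← pow_succ]
      congr 1
      omega
    rw [e1]
    calc (M : ℝ) ^ k * ((A.card : ℝ) ^ (2 * s) * ((solsFin s k I).card : ℝ))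
        = (A.card : ℝ) ^ (2 * s) * ((M : ℝ) ^ k * ((solsFin s k I).card : ℝ)) := by ring
      _ ≤ _ := h11
      _ = _ := by ring
  have h13 := le_of_mul_le_mul_left h12 hMpos
  have h14 : (sols s k N).card ≤ (solsFin s k I).card := by
    have : (solsFin s k (Finset.Icc 1 N)).card ≤ (solsFin s k I).card := by
      apply shift (fun n => n + (u + L)) ((u + L : ℕ) : ℚ)
      intro n hn
      rw [Finset.mem_Icc] at hn
      refine ⟨?_, by push_cast; ring⟩
      rw [hI, Finset.mem_Ioc]
      omega
    exact this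
  have h15 : A.card ^ (2 * s) * (solsFin s k I).card ≤ (N + L) ^ (2 * s) * (solsFin s k A).card := by
    exact_mod_cast h13
  exact (Nat.mul_le_mul_left _ h14).trans h15

end Pool.Agent.X37.VD
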