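import Mathlib
import Pool.Agent.X159.MB.L2

set_option autoImplicit false

/-!
# Montgomery's conjecture (second moments): points in an arbitrary dense set
-/

namespace Pool.Agent.X37.VD

open Finset Pool.Agent.X159.MB

/-- sets `Θ_N` of integers of `[0, N²]` of density `N ^ (-o(1))` -/
def DenseTimes (Θ : ℕ → Finset ℕ) : Prop :=
  (∀ N, ∀ t ∈ Θ N, t ≤ N ^ 2) ∧
  ∀ ε : ℝ, 0 < ε → ∃ c : ℝ, 0 < c ∧ ∀ N : ℕ, 1 ≤ N → c * (N : ℝ) ^ (2 - ε) ≤ (Θ N).card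

/-- the mean value estimate for `W ⊆ Θ_N` -/
def MeanIn (Θ : ℕ → Finset ℕ) : Prop :=
  ∀ ε : ℝ, 0 < ε → ∃ C : ℝ, ∀ N : ℕ, 1 ≤ N → ∀ W ⊆ Θ N, W.card ≤ N →
    ∑ n ∈ Icc 1 N, ‖∑ t ∈ W, phn n t‖ ≤ C * (N : ℝ) ^ (1 + ε) * Real.sqrt W.card

/-- the second moment estimate for `W ⊆ Θ_N` -/
def L2In (Θ : ℕ → Finset ℕ) : Prop :=
  ∀ ε : ℝ, 0 < ε → ∃ C : ℝ, 0 < C ∧ ∀ N : ℕ, 1 ≤ N → ∀ a : ℕ → ℂ, (∀ n, ‖a n‖ ≤ 1) →
    ∀ W ⊆ Θ N, ∑ t ∈ W, ‖∑ n ∈ Icc 1 N, a n * phn n t‖ ^ 2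
      ≤ C * (N : ℝ) ^ ε * ((N : ℝ) + (W.card : ℝ)) * (N : ℝ)

/-- the shifted set -/
def shf (M : ℕ) (Θ W : Finset ℕ) (u : ℕ) : Finset ℕ :=
  Θ.filter fun t' => u ≤ t' + M ∧ t' + M - u ∈ W

lemma shf_card (M : ℕ) (Θ W : Finset ℕ) (u : ℕ) : (shf M Θ W u).card ≤ W.card := by
  apply Finset.card_le_card_of_injOn (fun t' => t' + M - u)
  · intro t' ht'
    have := (Finset.mem_filter.1 (Finset.mem_coe.1 ht')).2
    exact Finset.mem_coe.2 this.2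
  · intro x hx y hy hxy
    have h1 := (Finset.mem_filter.1 (Finset.mem_coe.1 hx)).2.1
    have h2 := (Finset.mem_filter.1 (Finset.mem_coe.1 hy)).2.1
    simp only at hxy
    omega

lemma phn_shift (n M u t' : ℕ) (h : u ≤ t' + M) :
    phn n (t' + M - u) = phr n ((M : ℝ) - u) * phn n t' := by
  unfold phn phr
  rw [← Complex.exp_add]
  congr 1
  rw [Nat.cast_sub h]
  push_cast
  ring

/-- averaging over translates -/
theorem avg_ineq (M n : ℕ) (Θ W : Finset ℕ) (hΘ : ∀ t ∈ Θ, t ≤ M) (hW : ∀ t ∈ W, t ≤ M) :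
    (Θ.card : ℝ) * ‖∑ t ∈ W, phn n t‖ ≤
      ∑ u ∈ Finset.range (2 * M + 1), ‖∑ t ∈ shf M Θ W u, phn n t‖ := by
  have h1 : ∀ t' ∈ Θ, ∑ u ∈ (Finset.range (2 * M + 1)).filter
      (fun u => u ≤ t' + M ∧ t' + M - u ∈ W), phn n (t' + M - u) = ∑ t ∈ W, phn n t := by
    intro t' ht'
    have h0 := hΘ t' ht'
    symm
    apply Finset.sum_bij (fun t _ => t' + M - t)
    · intro t ht
      have h2 := hW t ht
      rw [Finset.mem_filter, Finset.mem_range]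
      have h3 : t' + M - (t' + M - t) = t := by omega
      rw [h3]
      exact ⟨by omega, by omega, ht⟩
    · intro t ht s hs hts
      have h2 := hW t ht
      have h3 := hW s hs
      omega
    · intro u hu
      rw [Finset.mem_filter, Finset.mem_range] at hu
      exact ⟨t' + M - u, hu.2.2, by omega⟩
    · intro t ht
      have h2 := hW t ht
      congr 1
      omega
  have h2 : (Θ.card : ℂ) * ∑ t ∈ W, phn n t =
      ∑ u ∈ Finset.range (2 * M + 1), phr n ((M : ℝ) - u) * ∑ t ∈ shf M Θ W u, phn n t := by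
    calc (Θ.card : ℂ) * ∑ t ∈ W, phn n t = ∑ t' ∈ Θ, ∑ t ∈ W, phn n t := by
          rw [Finset.sum_const, nsmul_eq_mul]
      _ = ∑ t' ∈ Θ, ∑ u ∈ (Finset.range (2 * M + 1)).filter
            (fun u => u ≤ t' + M ∧ t' + M - u ∈ W), phn n (t' + M - u) :=
          Finset.sum_congr rfl fun t' ht' => (h1 t' ht').symm
      _ = ∑ u ∈ Finset.range (2 * M + 1), ∑ t' ∈ shf M Θ W u, phn n (t' + M - u) := by
          unfold shf
          simp only [Finset.sum_filter]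
          rw [Finset.sum_comm]
      _ = _ := by
          apply Finset.sum_congr rfl
          intro u _
          rw [Finset.mul_sum]
          apply Finset.sum_congr rfl
          intro t' ht'
          exact phn_shift n M u t' (Finset.mem_filter.1 ht').2.1
  calc (Θ.card : ℝ) * ‖∑ t ∈ W, phn n t‖ = ‖(Θ.card : ℂ) * ∑ t ∈ W, phn n t‖ := by
        rw [norm_mul, Complex.norm_natCast]
    _ = ‖∑ u ∈ Finset.range (2 * M + 1), phr n ((M : ℝ) - u) * ∑ t ∈ shf M Θ W u, phn n t‖ := by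
        rw [h2]
    _ ≤ ∑ u ∈ Finset.range (2 * M + 1),
          ‖phr n ((M : ℝ) - u) * ∑ t ∈ shf M Θ W u, phn n t‖ := norm_sum_le _ _
    _ = _ := by
        apply Finset.sum_congr rfl
        intro u _
        rw [norm_mul, norm_phr, one_mul]

theorem mean_of_in {Θ : ℕ → Finset ℕ} (hΘ : DenseTimes Θ) (h : MeanIn Θ) : MeanValueIntegers := by
  intro ε hε
  obtain ⟨c, hc, hcN⟩ := hΘ.2 (ε / 2) (by linarith)
  obtain ⟨C, hC⟩ := h (ε / 2) (by linarith)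
  set C' : ℝ := max C 0 with hC'
  have hC0 : 0 ≤ C' := le_max_right _ _
  refine ⟨3 * C' / c, fun N hN W hWN hWt => ?_⟩
  have hNR : (1 : ℝ) ≤ N := by exact_mod_cast hN
  have hN0 : (0 : ℝ) < N := by linarith
  have hs : 0 ≤ Real.sqrt W.card := Real.sqrt_nonneg _
  have h1 : ((Θ N).card : ℝ) * ∑ n ∈ Icc 1 N, ‖∑ t ∈ W, phn n t‖ ≤
      (3 * (N : ℝ) ^ 2) * (C' * (N : ℝ) ^ (1 + ε / 2) * Real.sqrt W.card) := by
    calc ((Θ N).card : ℝ) * ∑ n ∈ Icc 1 N, ‖∑ t ∈ W, phn n t‖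
        = ∑ n ∈ Icc 1 N, ((Θ N).card : ℝ) * ‖∑ t ∈ W, phn n t‖ := Finset.mul_sum _ _ _
      _ ≤ ∑ n ∈ Icc 1 N, ∑ u ∈ Finset.range (2 * N ^ 2 + 1),
            ‖∑ t ∈ shf (N ^ 2) (Θ N) W u, phn n t‖ :=
          Finset.sum_le_sum fun n _ => avg_ineq (N ^ 2) n (Θ N) W (hΘ.1 N) hWt
      _ = ∑ u ∈ Finset.range (2 * N ^ 2 + 1), ∑ n ∈ Icc 1 N,
            ‖∑ t ∈ shf (N ^ 2) (Θ N) W u, phn n t‖ := Finset.sum_comm
      _ ≤ ∑ _u ∈ Finset.range (2 * N ^ 2 + 1), C' * (N : ℝ) ^ (1 + ε / 2) * Real.sqrt W.card := by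
          apply Finset.sum_le_sum
          intro u _
          have h2 := shf_card (N ^ 2) (Θ N) W u
          have h3 := hC N hN (shf (N ^ 2) (Θ N) W u) (Finset.filter_subset _ _) (h2.trans hWN)
          refine h3.trans ?_
          apply mul_le_mul
          · exact mul_le_mul_of_nonneg_right (le_max_left _ _) (by positivity)
          · exact Real.sqrt_le_sqrt (Nat.cast_le.2 h2)
          · exact Real.sqrt_nonneg _
          · positivity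
      _ = ((2 * N ^ 2 + 1 : ℕ) : ℝ) * (C' * (N : ℝ) ^ (1 + ε / 2) * Real.sqrt W.card) := by
          rw [Finset.sum_const, Finset.card_range, nsmul_eq_mul]
      _ ≤ _ := by
          apply mul_le_mul_of_nonneg_right _ (by positivity)
          push_cast
          nlinarith
  have h4 := hcN N hN
  have hX0 : 0 ≤ ∑ n ∈ Icc 1 N, ‖∑ t ∈ W, phn n t‖ := Finset.sum_nonneg fun _ _ => norm_nonneg _
  have h5 : (c * (N : ℝ) ^ (2 - ε / 2)) * ∑ n ∈ Icc 1 N, ‖∑ t ∈ W, phn n t‖ ≤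
      (3 * (N : ℝ) ^ 2) * (C' * (N : ℝ) ^ (1 + ε / 2) * Real.sqrt W.card) :=
    (mul_le_mul_of_nonneg_right h4 hX0).trans h1
  have h6 : (0 : ℝ) < c * (N : ℝ) ^ (2 - ε / 2) := by positivity
  refine le_of_mul_le_mul_left (h5.trans (le_of_eq ?_)) h6
  have e1 : (N : ℝ) ^ (2 : ℕ) = (N : ℝ) ^ (2 : ℝ) := by
    rw [← Real.rpow_natCast]
    norm_num
  have e2 : (N : ℝ) ^ (2 : ℝ) * (N : ℝ) ^ (1 + ε / 2) =
      (N : ℝ) ^ (2 - ε / 2) * (N : ℝ) ^ (1 + ε) := by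
    rw [← Real.rpow_add hN0, ← Real.rpow_add hN0]
    congr 1
    ring
  calc (3 * (N : ℝ) ^ 2) * (C' * (N : ℝ) ^ (1 + ε / 2) * Real.sqrt W.card)
      = 3 * C' * ((N : ℝ) ^ (2 : ℕ) * (N : ℝ) ^ (1 + ε / 2)) * Real.sqrt W.card := by ring
    _ = 3 * C' * ((N : ℝ) ^ (2 - ε / 2) * (N : ℝ) ^ (1 + ε)) * Real.sqrt W.card := by rw [e1, e2]
    _ = c * (N : ℝ) ^ (2 - ε / 2) * (3 * C' / c * (N : ℝ) ^ (1 + ε) * Real.sqrt W.card) := by
        field_simp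

theorem in_of_l2 {Θ : ℕ → Finset ℕ} (hΘ : ∀ N, ∀ t ∈ Θ N, t ≤ N ^ 2) (h : MontgomeryL2) :
    L2In Θ := by
  classical
  intro ε hε
  obtain ⟨C, hC, h⟩ := h ε hε
  refine ⟨C, hC, fun N hN a ha W hW => ?_⟩
  have h1 := h N hN ((N : ℝ) ^ 2) le_rfl a ha (W.image fun t : ℕ => (t : ℝ)) (by
    intro t ht
    obtain ⟨s, hs, rfl⟩ := Finset.mem_image.1 ht
    exact ⟨Nat.cast_nonneg _, by exact_mod_cast hΘ N s (hW hs)⟩) (by
    intro t ht u hu htu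
    obtain ⟨s, hs, rfl⟩ := Finset.mem_image.1 ht
    obtain ⟨r, hr, rfl⟩ := Finset.mem_image.1 hu
    have hne : (s : ℤ) - r ≠ 0 := by
      intro h0
      apply htu
      have : s = r := by omega
      rw [this]
    have h2 : 1 ≤ |(s : ℤ) - r| := Int.one_le_abs hne
    have h3 : ((1 : ℤ) : ℝ) ≤ ((|(s : ℤ) - r| : ℤ) : ℝ) := by exact_mod_cast h2
    push_cast at h3
    exact h3)
  have hinj : Set.InjOn (fun t : ℕ => (t : ℝ)) (W : Set ℕ) := fun x _ y _ hxy => by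
    have h : (x : ℝ) = (y : ℝ) := hxy
    exact_mod_cast h
  rw [Finset.sum_image hinj, Finset.card_image_of_injOn hinj] at h1
  simp only [phr_natCast] at h1
  exact h1

theorem mean_of_l2in {Θ : ℕ → Finset ℕ} (h : L2In Θ) : MeanIn Θ := by
  intro ε hε
  obtain ⟨C, hC, h⟩ := h (2 * ε) (by linarith)
  refine ⟨Real.sqrt (2 * C), fun N hN W hW hWN => ?_⟩
  have hNR : (1 : ℝ) ≤ N := by exact_mod_cast hN
  have hN0 : (0 : ℝ) < N := by linarith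
  have hex : ∀ n : ℕ, ∃ a : ℂ, ‖a‖ ≤ 1 ∧ a * (∑ t ∈ W, phn n t) = (‖∑ t ∈ W, phn n t‖ : ℝ) := by
    intro n
    set z : ℂ := ∑ t ∈ W, phn n t with hz
    by_cases h0 : z = 0
    · exact ⟨0, by simp, by simp [h0]⟩
    · have hn0 : (‖z‖ : ℂ) ≠ 0 := by
        exact_mod_cast (norm_ne_zero_iff.2 h0)
      refine ⟨(starRingEnd ℂ) z / ‖z‖, ?_, ?_⟩
      · rw [norm_div, RCLike.norm_conj, Complex.norm_real, norm_norm,
          div_self (norm_ne_zero_iff.2 h0)]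
      · have h1 : (starRingEnd ℂ) z * z = (‖z‖ : ℂ) ^ 2 := by
          rw [mul_comm, Complex.mul_conj, Complex.normSq_eq_norm_sq]
          push_cast
          rfl
        rw [div_mul_eq_mul_div, h1, sq, mul_div_assoc, div_self hn0, mul_one]
  choose a ha1 ha2 using hex
  have h1 := h N hN a ha1 W hW
  set X : ℝ := ∑ n ∈ Icc 1 N, ‖∑ t ∈ W, phn n t‖ with hX
  have hX0 : 0 ≤ X := Finset.sum_nonneg fun _ _ => norm_nonneg _
  have h2 : (X : ℂ) = ∑ t ∈ W, ∑ n ∈ Icc 1 N, a n * phn n t := by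
    rw [hX, Finset.sum_comm]
    push_cast
    apply Finset.sum_congr rfl
    intro n _
    rw [← Finset.mul_sum]
    exact (ha2 n).symm
  have h3 : X ≤ ∑ t ∈ W, ‖∑ n ∈ Icc 1 N, a n * phn n t‖ := by
    calc X = ‖(X : ℂ)‖ := by rw [Complex.norm_real, Real.norm_of_nonneg hX0]
      _ = ‖∑ t ∈ W, ∑ n ∈ Icc 1 N, a n * phn n t‖ := by rw [h2]
      _ ≤ _ := norm_sum_le _ _
  have h4 : X ^ 2 ≤ W.card * (C * (N : ℝ) ^ (2 * ε) * ((N : ℝ) + (W.card : ℝ)) * (N : ℝ)) := by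
    calc X ^ 2 ≤ (∑ t ∈ W, ‖∑ n ∈ Icc 1 N, a n * phn n t‖) ^ 2 := pow_le_pow_left₀ hX0 h3 2
      _ ≤ W.card * ∑ t ∈ W, ‖∑ n ∈ Icc 1 N, a n * phn n t‖ ^ 2 := sq_sum_le_card_mul_sum_sq
      _ ≤ _ := mul_le_mul_of_nonneg_left h1 (Nat.cast_nonneg _)
  have hWR : (W.card : ℝ) ≤ N := Nat.cast_le.2 hWN
  have e1 : (N : ℝ) ^ (2 * ε) = ((N : ℝ) ^ ε) ^ 2 := by
    rw [← Real.rpow_natCast, ← Real.rpow_mul hN0.le]
    congr 1
    push_cast
    ring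
  have h5 : X ^ 2 ≤ (Real.sqrt (2 * C) * (N : ℝ) ^ (1 + ε) * Real.sqrt W.card) ^ 2 := by
    rw [mul_pow, mul_pow, Real.sq_sqrt (by positivity), Real.sq_sqrt (Nat.cast_nonneg _),
      Real.rpow_add hN0, Real.rpow_one, mul_pow]
    rw [e1] at h4
    calc X ^ 2 ≤ W.card * (C * ((N : ℝ) ^ ε) ^ 2 * ((N : ℝ) + (W.card : ℝ)) * (N : ℝ)) := h4
      _ ≤ W.card * (C * ((N : ℝ) ^ ε) ^ 2 * ((N : ℝ) + N) * (N : ℝ)) := by
          apply mul_le_mul_of_nonneg_left _ (Nat.cast_nonneg _)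
          apply mul_le_mul_of_nonneg_right _ hN0.le
          apply mul_le_mul_of_nonneg_left _ (by positivity)
          linarith
      _ = _ := by ring
  exact (sq_le_sq₀ hX0 (by positivity)).1 h5

theorem times_main {Θ : ℕ → Finset ℕ} (hΘ : DenseTimes Θ) :
    (MontgomeryL2 ↔ L2In Θ) ∧ (MontgomeryL2 ↔ MeanIn Θ) :=
  ⟨⟨in_of_l2 hΘ.1, fun h => l2_main.2.2 (mean_of_in hΘ (mean_of_l2in h))⟩,
    ⟨fun h => mean_of_l2in (in_of_l2 hΘ.1 h), fun h => l2_main.2.2 (mean_of_in hΘ h)⟩⟩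

end Pool.Agent.X37.VD
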