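import Mathlib
import Pool.Agent.X37.VD.Times

set_option autoImplicit false

namespace Pool.Agent.X37.VD

open Finset Pool.Agent.X159.MB

lemma sum_shf_card (M : ℕ) (Θ W : Finset ℕ) :
    ∑ u ∈ Finset.range (2 * M + 1), (shf M Θ W u).card ≤ Θ.card * W.card := by
  have h1 : ∑ u ∈ Finset.range (2 * M + 1), (shf M Θ W u).card =
      ∑ t' ∈ Θ, ((Finset.range (2 * M + 1)).filter
        (fun u => u ≤ t' + M ∧ t' + M - u ∈ W)).card := by
    unfold shf
    simp only [Finset.card_filter]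
    rw [Finset.sum_comm]
  rw [h1]
  calc ∑ t' ∈ Θ, ((Finset.range (2 * M + 1)).filter
        (fun u => u ≤ t' + M ∧ t' + M - u ∈ W)).card ≤ ∑ _t' ∈ Θ, W.card := by
        apply Finset.sum_le_sum
        intro t' _
        apply Finset.card_le_card_of_injOn (fun u => t' + M - u)
        · intro u hu
          have := (Finset.mem_filter.1 (Finset.mem_coe.1 hu)).2
          exact Finset.mem_coe.2 this.2
        · intro x hx y hy hxy
          have h1 := (Finset.mem_filter.1 (Finset.mem_coe.1 hx)).2.1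
          have h2 := (Finset.mem_filter.1 (Finset.mem_coe.1 hy)).2.1
          simp only at hxy
          omega
    _ = Θ.card * W.card := by rw [Finset.sum_const, smul_eq_mul]

/-- quantitative comparison of a set with its ambient interval -/
theorem comparison_times (N : ℕ) (hN : 1 ≤ N) (Θ : Finset ℕ) (hΘ : ∀ t ∈ Θ, t ≤ N ^ 2) (B : ℝ)
    (hB : 0 ≤ B)
    (h : ∀ W ⊆ Θ, W.card ≤ N → ∑ n ∈ Icc 1 N, ‖∑ t ∈ W, phn n t‖ ≤ B * Real.sqrt W.card)
    (W : Finset ℕ) (hWN : W.card ≤ N) (hWt : ∀ t ∈ W, t ≤ N ^ 2) :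
    Real.sqrt Θ.card * ∑ n ∈ Icc 1 N, ‖∑ t ∈ W, phn n t‖ ≤
      2 * B * N * Real.sqrt W.card := by
  have hNR : (1 : ℝ) ≤ N := by exact_mod_cast hN
  rcases Finset.eq_empty_or_nonempty Θ with h0 | hne
  · subst h0
    simp only [Finset.card_empty, Nat.cast_zero, Real.sqrt_zero, zero_mul]
    positivity
  have hQ : (0 : ℝ) < Θ.card := by exact_mod_cast hne.card_pos
  have hsQ : 0 < Real.sqrt Θ.card := Real.sqrt_pos.2 hQ
  set X : ℝ := ∑ n ∈ Icc 1 N, ‖∑ t ∈ W, phn n t‖ with hX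
  have h1 : (Θ.card : ℝ) * X ≤ ∑ u ∈ Finset.range (2 * N ^ 2 + 1),
      B * Real.sqrt (shf (N ^ 2) Θ W u).card := by
    calc (Θ.card : ℝ) * X
        = ∑ n ∈ Icc 1 N, (Θ.card : ℝ) * ‖∑ t ∈ W, phn n t‖ := Finset.mul_sum _ _ _
      _ ≤ ∑ n ∈ Icc 1 N, ∑ u ∈ Finset.range (2 * N ^ 2 + 1),
            ‖∑ t ∈ shf (N ^ 2) Θ W u, phn n t‖ :=
          Finset.sum_le_sum fun n _ => avg_ineq (N ^ 2) n Θ W hΘ hWt
      _ = ∑ u ∈ Finset.range (2 * N ^ 2 + 1), ∑ n ∈ Icc 1 N,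
            ‖∑ t ∈ shf (N ^ 2) Θ W u, phn n t‖ := Finset.sum_comm
      _ ≤ _ := Finset.sum_le_sum fun u _ => h _ (Finset.filter_subset _ _)
            ((shf_card (N ^ 2) Θ W u).trans hWN)
  have h2 : (∑ u ∈ Finset.range (2 * N ^ 2 + 1), Real.sqrt (shf (N ^ 2) Θ W u).card) ^ 2 ≤
      (2 * N * (Real.sqrt Θ.card * Real.sqrt W.card)) ^ 2 := by
    have h3 : (∑ u ∈ Finset.range (2 * N ^ 2 + 1), ((shf (N ^ 2) Θ W u).card : ℝ)) ≤
        (Θ.card : ℝ) * W.card := by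
      exact_mod_cast sum_shf_card (N ^ 2) Θ W
    calc (∑ u ∈ Finset.range (2 * N ^ 2 + 1), Real.sqrt (shf (N ^ 2) Θ W u).card) ^ 2
        ≤ (Finset.range (2 * N ^ 2 + 1)).card *
          ∑ u ∈ Finset.range (2 * N ^ 2 + 1), Real.sqrt (shf (N ^ 2) Θ W u).card ^ 2 :=
          sq_sum_le_card_mul_sum_sq
      _ = ((2 * N ^ 2 + 1 : ℕ) : ℝ) *
          ∑ u ∈ Finset.range (2 * N ^ 2 + 1), ((shf (N ^ 2) Θ W u).card : ℝ) := by
          rw [Finset.card_range]
          congr 1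
          exact Finset.sum_congr rfl fun u _ => Real.sq_sqrt (Nat.cast_nonneg _)
      _ ≤ (4 * (N : ℝ) ^ 2) * ((Θ.card : ℝ) * W.card) := by
          apply mul_le_mul _ h3 (Finset.sum_nonneg fun _ _ => Nat.cast_nonneg _) (by positivity)
          push_cast
          nlinarith
      _ = _ := by
          rw [mul_pow, mul_pow, mul_pow, Real.sq_sqrt (Nat.cast_nonneg _),
            Real.sq_sqrt (Nat.cast_nonneg _)]
          ring
  have h4 : ∑ u ∈ Finset.range (2 * N ^ 2 + 1), Real.sqrt (shf (N ^ 2) Θ W u).card ≤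
      2 * N * (Real.sqrt Θ.card * Real.sqrt W.card) :=
    (sq_le_sq₀ (Finset.sum_nonneg fun _ _ => Real.sqrt_nonneg _) (by positivity)).1 h2
  have h5 : Real.sqrt Θ.card * (Real.sqrt Θ.card * X) ≤
      Real.sqrt Θ.card * (2 * B * N * Real.sqrt W.card) := by
    calc Real.sqrt Θ.card * (Real.sqrt Θ.card * X) = (Θ.card : ℝ) * X := by
          rw [← mul_assoc, Real.mul_self_sqrt hQ.le]
      _ ≤ ∑ u ∈ Finset.range (2 * N ^ 2 + 1), B * Real.sqrt (shf (N ^ 2) Θ W u).card := h1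
      _ = B * ∑ u ∈ Finset.range (2 * N ^ 2 + 1), Real.sqrt (shf (N ^ 2) Θ W u).card := by
          rw [Finset.mul_sum]
      _ ≤ B * (2 * N * (Real.sqrt Θ.card * Real.sqrt W.card)) :=
          mul_le_mul_of_nonneg_left h4 hB
      _ = _ := by ring
  exact le_of_mul_le_mul_left h5 hsQ

end Pool.Agent.X37.VD
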